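import Pool.Agent.Helper37.KDB.Extra
import Pool.Agent.Helper37.KDB.St.D1
import Pool.Agent.Helper37.KDB.St.D17

/-! Project KDB, piece L2: candidate windows are disjoint and remembered; the canonical choice
is compatible. -/

set_option autoImplicit false

namespace KDB.I.L2

open MeasureTheory KDB
open scoped ENNReal

variable (p : Par)

private theorem W_le (hp : p.Ok) (i : ℕ) : p.W i ≤ p.tau i := by
  rw [← W_ell p i]
  refine Nat.le_mul_of_pos_right _ ?_
  unfold Par.ell
  exact Nat.pow_pos (lt_of_lt_of_le (by norm_num) hp.hL)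

private theorem W_pos (hp : p.Ok) (i : ℕ) : 0 < p.W i := by
  unfold Par.W
  exact Nat.mul_pos (lt_of_lt_of_le Nat.one_pos hp.hH)
    (Nat.pow_pos (lt_of_lt_of_le (by norm_num) hp.hL))

private theorem no_overlap (hp : p.Ok) (t i a a' j : ℕ) (ha : 1 ≤ a) (h : a < a')
    (hj : j < p.cand t i a + p.W i) (hj' : p.cand t i a' - p.tau i ≤ j) : False := by
  have hW := W_le p hp i
  have hW0 := W_pos p hp i
  have hts := tau_succ p i
  have h1 : p.cand t i a + p.tau (i + 1) ≤ p.cand t i a' := by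
    unfold Par.cand
    have h2 : (a - 1) * p.tau (i + 1) + p.tau (i + 1) ≤ (a' - 1) * p.tau (i + 1) := by
      have h3 : (a - 1) + 1 ≤ a' - 1 := by omega
      calc (a - 1) * p.tau (i + 1) + p.tau (i + 1) = ((a - 1) + 1) * p.tau (i + 1) := by ring
        _ ≤ (a' - 1) * p.tau (i + 1) := Nat.mul_le_mul_right _ h3
    simp only
    omega
  have h4 : 1000 * p.tau i ≤ p.tau (i + 1) := by
    rw [hts]
    exact Nat.mul_le_mul_right _ hp.hL
  omega

/-- the candidate windows of a level are disjoint and remembered -/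
theorem cand_disj (hp : p.Ok) (t i a a' j : ℕ) (ht : MM * p.tau (i + 1) ≤ t)
    (ha : 1 ≤ a ∧ a ≤ 49) (ha' : 1 ≤ a' ∧ a' ≤ 49)
    (hj : j ∈ Finset.Ico (p.cand t i a - p.tau i) (p.cand t i a + p.W i))
    (hj' : j ∈ Finset.Ico (p.cand t i a' - p.tau i) (p.cand t i a' + p.W i)) :
    a = a' ∧ j < t ∧ p.mst t j ≤ i := by
  rw [Finset.mem_Ico] at hj hj'
  refine ⟨?_, ?_, ?_⟩
  · rcases lt_trichotomy a a' with h | h | h
    · exact (no_overlap p hp t i a a' j ha.1 h hj.2 hj'.1).elim
    · exact h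
    · exact (no_overlap p hp t i a' a j ha'.1 h hj'.2 hj.1).elim
  · have h1 := (cand_spec p hp t i a ht ha.1 ha.2).2.2.1
    omega
  · have h1 := (cand_spec p hp t i a ht ha.1 ha.2).2.1
    have h2 : t - j ≤ MM * p.tau (i + 1) := by omega
    unfold Par.mst
    rw [dif_pos ⟨i, h2⟩]
    exact Nat.find_min' _ h2

/-- the canonical choice is compatible -/
theorem cho_compat (hp : p.Ok) (om : ℕ → Nz p.d) (t : ℕ) :
    (∀ i, p.cho om t i ≤ 49) ∧ p.Compat om t (p.cho om t) := by
  classical
  constructor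
  · intro i
    unfold Par.cho
    split_ifs with hh
    · exact (Nat.find_spec hh).2.1
    · exact Nat.zero_le _
  · intro i _ ht hc
    have key : 1 ≤ p.cho om t i ∧ p.cho om t i ≤ 49 ∧ p.Good om i (p.cand t i (p.cho om t i)) := by
      unfold Par.cho at hc ⊢
      split_ifs at hc ⊢ with hh
      · exact Nat.find_spec hh
      · exact (hc rfl).elim
    exact ⟨key.2.2, (cand_spec p hp t i _ ht key.1 key.2.1).2.2.1⟩

end KDB.I.L2
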